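import Pool.Agent.Results.MP_4f8676_lc.UniversalTheoryUndecidable

set_option autoImplicit false
set_option linter.all false

/-!
# The universal theory of a partially commutative metabelian group need not be axiomatizable

For the path `Γ` on five vertices every co-r.e. set is many-one reducible to the universal theory of
`S_Γ`, already to the universal sentences with a fixed number `m` of variables; so the universal
theory is not recursively enumerable. Stronger form of the starting file
`UniversalTheoryUndecidable`; the reduction from the halting problem is the one given there.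
-/

namespace Pool.Agent.Results.MP_4f8676_lc.NotAxiomatizable

open FirstOrder FirstOrder.Language
open Pool.Agent.Results.MP_4f8676_lc.UniversalTheoryUndecidable
open Pool.Agent.Helper702 (Pm.Ex Pm.Lit Pm.Sat)
open Pool.Agent.Helper702.Pm (Ex Lit Sat Vr sysL vz vy gates_fin haltSet haltSet_re
  haltSet_not_computable sys_iff)

/-- The universal theory of `G`: the set of the Gödel numbers of the universal sentences which hold
in `G`. -/
def UniversalTheory (G : Type) [Group G] (n : ℕ) : Prop :=
  ∃ φ : Lgrp.Sentence, φ.IsUniversal ∧ code φ = n ∧ G ⊨ φ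

/-- The part of the universal theory with `m` variables: the set of the Gödel numbers of the
sentences `∀ y₁ ⋯ ∀ yₘ, φ` with `φ` quantifier-free which hold in `G`. -/
def UniversalTheoryIn (m : ℕ) (G : Type) [Group G] (n : ℕ) : Prop :=
  ∃ φ : Lgrp.BoundedFormula Empty m, φ.IsQF ∧ code (φ.alls : Lgrp.Sentence) = n ∧
    G ⊨ (φ.alls : Lgrp.Sentence)

/-- the reduction of the complement of the halting problem -/
theorem reduction : ∃ (m : ℕ) (sen : ℕ → Lgrp.BoundedFormula Empty m), (∀ n, (sen n).IsQF) ∧
    Computable (fun n => code ((sen n).alls : Lgrp.Sentence)) ∧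
    ∀ n, (Pool.Agent.Helper702.Pm.PCM Pool.Agent.Helper702.Pm.P5 ⊨
      ((sen n).alls : Lgrp.Sentence)) ↔ ¬ haltSet n := by
  obtain ⟨M, Γ, p, hΓ⟩ := gates_fin haltSet_re
  let k := Fintype.card (Vr (Fin M))
  let f : Vr (Fin M) → Fin k := Fintype.equivFin (Vr (Fin M))
  let ls := sysL (List.finRange M) Γ
  let l0 : ℕ → Lit (Vr (Fin M)) := fun n => (true, vz p, .npw (vy 1) n)
  refine ⟨k, fun n => body f (l0 n) ls, fun n => isQF_body f (l0 n) ls, ?_, ?_⟩
  · have h3 : Computable fun n => code (toForm f (l0 n)) := by
      change Computable fun n => Nat.pair 1 (Nat.pair (termCode (toTerm f (vz p)))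
        (termCode (toTerm f (.npw (vy 1) n))))
      exact Primrec₂.natPair.to_comp.comp (Computable.const 1)
        (Primrec₂.natPair.to_comp.comp (Computable.const _) (computable_npw f _))
    have h4 := (computable_iter k).comp (computable_body f l0 ls h3)
    refine h4.of_eq fun n => ?_
    rw [code_alls]
  · intro n
    obtain ⟨v0, h2⟩ : ∃ v0 : Empty → Pool.Agent.Helper702.Pm.PCM Pool.Agent.Helper702.Pm.P5,
        (Pool.Agent.Helper702.Pm.PCM Pool.Agent.Helper702.Pm.P5 ⊨
          ((body f (l0 n) ls).alls : Lgrp.Sentence)) ↔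
        ∀ x : Fin k → Pool.Agent.Helper702.Pm.PCM Pool.Agent.Helper702.Pm.P5,
          (body f (l0 n) ls).Realize v0 x := ⟨_, BoundedFormula.realize_alls⟩
    have h3 := sys_iff (List.finRange M) List.mem_finRange Γ p n
    rw [h2, hΓ n, ← h3, not_exists]
    constructor
    · intro h a ha
      have h4 := h (a ∘ (Fintype.equivFin (Vr (Fin M))).symm)
      rw [realize_body] at h4
      have h5 : (a ∘ (Fintype.equivFin (Vr (Fin M))).symm) ∘ f = a := by
        funext i
        simp [f]
      rw [h5] at h4
      exact h4 ha
    · intro h x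
      rw [realize_body]
      exact h _

/-- every recursively enumerable set is many-one reducible to the halting set -/
theorem halt_complete (S : ℕ → Prop) (hS : REPred S) :
    ∃ t : ℕ → ℕ, Computable t ∧ ∀ a, haltSet (t a) ↔ S a := by
  have h1 : Nat.Partrec fun n => Part.bind (Encodable.decode (α := ℕ) n) fun a =>
      (Part.assert (S a) fun _ => Part.some ()).map Encodable.encode := hS
  obtain ⟨c, hc⟩ := Nat.Partrec.Code.exists_code.1 h1
  refine ⟨fun a => Encodable.encode (Nat.Partrec.Code.curry
    (Nat.Partrec.Code.comp c Nat.Partrec.Code.left) a), ?_, fun a => ?_⟩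
  · exact (Primrec.encode.comp
      (Nat.Partrec.Code.primrec₂_curry.comp (Primrec.const _) Primrec.id)).to_comp
  · unfold haltSet
    rw [Denumerable.ofNat_encode, Nat.Partrec.Code.eval_curry]
    have e : Nat.Partrec.Code.eval (Nat.Partrec.Code.comp c Nat.Partrec.Code.left)
        (Nat.pair a 0) = Nat.Partrec.Code.eval c a := by
      first
        | (simp [Nat.Partrec.Code.eval]; done)
        | (simp [Nat.Partrec.Code.eval]; exact Part.bind_some a _)
    rw [e, hc]
    simp [Part.assert]

theorem not_re {U : ℕ → Prop}
    (h : ∀ A : ℕ → Prop, REPred (fun n => ¬ A n) → ManyOneReducible A U) : ¬ REPred U := by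
  intro hU
  obtain ⟨f, hf, hfU⟩ := h (fun n => ¬ haltSet n) (haltSet_re.of_eq fun n => not_not.symm)
  have h1 : REPred fun n => U (f n) := Partrec.comp hU hf
  have h2 : REPred fun n => ¬ haltSet n := h1.of_eq fun n => (hfU n).symm
  exact haltSet_not_computable (ComputablePred.computable_iff_re_compl_re'.2 ⟨haltSet_re, h2⟩)

/-- the universal theory of `S_Γ` for the path `Γ` on five vertices -/
def TheoryS (n : ℕ) : Prop := UniversalTheory (PCM (SimpleGraph.pathGraph 5)) n

/-- the part of the universal theory of `S_Γ` with `m` variables -/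
def TheorySIn (m n : ℕ) : Prop := UniversalTheoryIn m (PCM (SimpleGraph.pathGraph 5)) n

/-- the universal theory of `S_Γ` is decidable -/
def DecidableS : Prop := UniversalTheoryDecidable (PCM (SimpleGraph.pathGraph 5))

/-- **The universal theory of the partially commutative metabelian group `S_Γ` of the path on five
vertices is not recursively axiomatizable.** There is a number `m` such that every co-recursively
enumerable set of natural numbers is many-one reducible to the set of the (Gödel numbers of the)
universal sentences with `m` variables which hold in `S_Γ`; hence this set is not recursively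
enumerable. The same holds for the universal theory of `S_Γ`, which in particular is
undecidable. -/
theorem result :
    (∃ m : ℕ, (∀ A : ℕ → Prop, REPred (fun n => ¬ A n) → ManyOneReducible A (TheorySIn m)) ∧
      ¬ REPred (TheorySIn m)) ∧
    (∀ A : ℕ → Prop, REPred (fun n => ¬ A n) → ManyOneReducible A TheoryS) ∧
    ¬ REPred TheoryS ∧ ¬ DecidableS := by
  obtain ⟨m, sen, h1, h2, h3⟩ := reduction
  have k1 : ∀ A : ℕ → Prop, REPred (fun n => ¬ A n) → ManyOneReducible A (TheorySIn m) := by
    intro A hA
    obtain ⟨t, ht, ht2⟩ := halt_complete _ hA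
    refine ⟨fun n => code ((sen (t n)).alls : Lgrp.Sentence), h2.comp ht, fun n => ?_⟩
    have h4 : (PCM (SimpleGraph.pathGraph 5) ⊨ ((sen (t n)).alls : Lgrp.Sentence)) ↔ A n := by
      refine (h3 (t n)).trans ?_
      rw [ht2, not_not]
    constructor
    · intro hn
      exact ⟨sen (t n), h1 _, rfl, h4.2 hn⟩
    · rintro ⟨φ, -, hφ2, hφ3⟩
      have h5 := code_injective _ _ hφ2
      rw [h5] at hφ3
      exact h4.1 hφ3
  have k2 : ∀ A : ℕ → Prop, REPred (fun n => ¬ A n) → ManyOneReducible A TheoryS := by
    intro A hA
    obtain ⟨t, ht, ht2⟩ := halt_complete _ hA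
    refine ⟨fun n => code ((sen (t n)).alls : Lgrp.Sentence), h2.comp ht, fun n => ?_⟩
    have h4 : (PCM (SimpleGraph.pathGraph 5) ⊨ ((sen (t n)).alls : Lgrp.Sentence)) ↔ A n := by
      refine (h3 (t n)).trans ?_
      rw [ht2, not_not]
    constructor
    · intro hn
      exact ⟨_, isUniversal_alls _ (h1 _).isUniversal, rfl, h4.2 hn⟩
    · rintro ⟨φ, -, hφ2, hφ3⟩
      have h5 := code_injective _ _ hφ2
      rw [h5] at hφ3
      exact h4.1 hφ3
  exact ⟨⟨m, k1, not_re k1⟩, k2, not_re k2,
    Pool.Agent.Results.MP_4f8676_lc.UniversalTheoryUndecidable.result⟩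

end Pool.Agent.Results.MP_4f8676_lc.NotAxiomatizable
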